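import Pool.Agent.Helper40.GP.Stm

/-! # The discriminant of the pencil (not a result) -/

set_option autoImplicit false

open Polynomial

namespace Pool.Agent.Helper88.GP

open Pool.Agent.Helper40.GP

/-- reciprocity of the resultant -/
lemma res_swap (F G : ℂ[X]) :
    ‖F.leadingCoeff‖ ^ G.natDegree * (F.roots.map fun x => ‖G.eval x‖).prod =
      ‖G.leadingCoeff‖ ^ F.natDegree * (G.roots.map fun y => ‖F.eval y‖).prod := by
  have hev : ∀ (H : ℂ[X]) (x : ℂ), ‖H.eval x‖ = ‖H.leadingCoeff‖ *
      (H.roots.map fun y => ‖x - y‖).prod := by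
    intro H x
    have h1 : H = C H.leadingCoeff * (H.roots.map fun a => X - C a).prod :=
      (IsAlgClosed.splits H).eq_prod_roots
    conv_lhs => rw [h1]
    rw [eval_mul, eval_C, norm_mul, eval_multiset_prod, Multiset.map_map]
    congr 1
    have h2 : ∀ s : Multiset ℂ, ‖(s.map (fun a => eval x (X - C a))).prod‖ =
        (s.map fun y => ‖x - y‖).prod := by
      intro s
      induction s using Multiset.induction_on with
      | empty => simp
      | cons a s ih =>
        rw [Multiset.map_cons, Multiset.prod_cons, Multiset.map_cons, Multiset.prod_cons, norm_mul,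
          ih, eval_sub, eval_X, eval_C]
    exact h2 _
  have hcard : ∀ H : ℂ[X], H.roots.card = H.natDegree := fun H =>
    (IsAlgClosed.splits H).natDegree_eq_card_roots.symm
  have e1 : (F.roots.map fun x => ‖G.eval x‖).prod = ‖G.leadingCoeff‖ ^ F.natDegree *
      (F.roots.map fun x => (G.roots.map fun y => ‖x - y‖).prod).prod := by
    have : (fun x => ‖G.eval x‖) = fun x => ‖G.leadingCoeff‖ *
        (G.roots.map fun y => ‖x - y‖).prod := funext (hev G)
    rw [this, Multiset.prod_map_mul, Multiset.map_const', Multiset.prod_replicate, hcard]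
  have e2 : (G.roots.map fun y => ‖F.eval y‖).prod = ‖F.leadingCoeff‖ ^ G.natDegree *
      (G.roots.map fun y => (F.roots.map fun x => ‖y - x‖).prod).prod := by
    have : (fun x => ‖F.eval x‖) = fun x => ‖F.leadingCoeff‖ *
        (F.roots.map fun y => ‖x - y‖).prod := funext (hev F)
    rw [this, Multiset.prod_map_mul, Multiset.map_const', Multiset.prod_replicate, hcard]
  have e3 : ∀ s t : Multiset ℂ, (s.map fun x => (t.map fun y => ‖x - y‖).prod).prod =
      (t.map fun y => (s.map fun x => ‖y - x‖).prod).prod := by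
    intro s t
    rw [Multiset.prod_map_prod_map]
    congr 1
    refine Multiset.map_congr rfl fun y _ => ?_
    congr 1
    refine Multiset.map_congr rfl fun x _ => ?_
    exact norm_sub_rev x y
  rw [e1, e2, e3]
  ring

lemma natDegree_rev {A : ℤ[X]} (h : Good A) : A.reverse.natDegree = A.natDegree := by
  have h0 : A.coeff 0 ≠ 0 := by
    intro h1
    have := h.const
    rw [h1, abs_zero] at this
    exact zero_ne_one this
  rw [reverse_natDegree, natTrailingDegree_eq_zero.2 (Or.inr h0), Nat.sub_zero]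

lemma lead_rev {A : ℤ[X]} (h : Good A) : A.reverse.leadingCoeff = A.coeff 0 := by
  have h0 : A.coeff 0 ≠ 0 := by
    intro h1
    have := h.const
    rw [h1, abs_zero] at this
    exact zero_ne_one this
  rw [reverse_leadingCoeff, trailingCoeff, natTrailingDegree_eq_zero.2 (Or.inr h0)]

lemma cc_inj : Function.Injective (Int.castRingHom ℂ) := Int.cast_injective

lemma natDegree_cc (A : ℤ[X]) : (cc A).natDegree = A.natDegree :=
  natDegree_map_eq_of_injective cc_inj A

lemma lead_cc (A : ℤ[X]) : (cc A).leadingCoeff = (A.leadingCoeff : ℂ) :=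
  leadingCoeff_map_of_injective cc_inj A

lemma good_coprime {A : ℤ[X]} (h : Good A) : IsCoprime (cc A) (cc A.reverse) := by
  have h1 := h.cop.map (mapRingHom (algebraMap ℚ ℂ))
  rw [coe_mapRingHom, Polynomial.map_map, Polynomial.map_map] at h1
  have e : (algebraMap ℚ ℂ).comp (Int.castRingHom ℚ) = Int.castRingHom ℂ := RingHom.ext_int _ _
  rwa [e] at h1

lemma not_both {A : ℤ[X]} (h : Good A) (x : ℂ) :
    ¬ ((cc A).eval x = 0 ∧ (cc A.reverse).eval x = 0) := by
  rintro ⟨h1, h2⟩
  obtain ⟨u, w, huw⟩ := good_coprime h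
  have h3 := congrArg (eval x) huw
  rw [eval_add, eval_mul, eval_mul, h1, h2, mul_zero, mul_zero, add_zero, eval_one] at h3
  exact zero_ne_one h3

lemma lists_roots {F : ℂ[X]} {d : ℕ} {z : Fin d → ℂ} (hF : F ≠ 0) (h : Lists F z) :
    F.roots = Finset.univ.val.map z := by
  have h0 : F.leadingCoeff ≠ 0 := leadingCoeff_ne_zero.2 hF
  have h1 : F = C F.leadingCoeff * (Finset.univ.val.map fun i => X - C (z i)).prod := h
  conv_lhs => rw [h1]
  rw [roots_C_mul _ h0]
  have h2 : (Finset.univ.val.map fun i => X - C (z i)) =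
      (Finset.univ.val.map z).map fun a => X - C a := by
    rw [Multiset.map_map]
    rfl
  rw [h2, roots_multiset_prod_X_sub_C]

theorem vy : S_VY := by
  intro A k v hA hk hv hco
  set a := A.natDegree with ha
  have ha1 : 1 ≤ a := hA.deg
  set P := PP A k v with hP
  set B := A.reverse with hB
  have hdB : B.natDegree = a := natDegree_rev hA
  have hle : P.natDegree ≤ k * a := by
    rw [hP]
    unfold PP
    refine (natDegree_sub_le _ _).trans (max_le ?_ ?_)
    · refine natDegree_pow_le.trans ?_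
      rw [natDegree_cc]
    · refine (natDegree_C_mul_le _ _).trans (natDegree_pow_le.trans ?_)
      rw [natDegree_cc, hdB]
  have hdeg : P.natDegree = k * a := le_antisymm hle (le_natDegree_of_ne_zero hco)
  have hP0 : P ≠ 0 := by
    rintro h
    rw [h, coeff_zero] at hco
    exact hco rfl
  have hL0 : ‖P.leadingCoeff‖ ≠ 0 := norm_ne_zero_iff.2 (leadingCoeff_ne_zero.2 hP0)
  have hn1 : 0 < k * a := by positivity
  refine ⟨hdeg, fun y hy => ?_⟩
  have hroots := lists_roots hP0 hy
  have hprod : ∀ G : ℂ → ℝ, (P.roots.map G).prod = ∏ j, G (y j) := by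
    intro G
    rw [hroots, Multiset.map_map]
    rfl
  refine ⟨?_, ?_⟩
  · rw [mahlerMeasure_eq_leadingCoeff_mul_prod_roots, hprod, mul_comm]
  -- the derivative at the roots
  have hev : ∀ x : ℂ, P.eval x = (cc A).eval x ^ k - v * (cc B).eval x ^ k := by
    intro x
    rw [hP]
    unfold PP
    rw [eval_sub, eval_mul, eval_C, eval_pow, eval_pow]
  have hyr : ∀ i, P.eval (y i) = 0 := by
    intro i
    have h1 : y i ∈ P.roots := by
      rw [hroots]
      exact Multiset.mem_map_of_mem _ (Finset.mem_univ_val i)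
    exact (mem_roots hP0).1 h1
  have hAB : ∀ i, ‖(cc A).eval (y i)‖ = ‖(cc B).eval (y i)‖ := by
    intro i
    have h1 := hyr i
    rw [hev, sub_eq_zero] at h1
    have h2 := congrArg norm h1
    rw [norm_pow, norm_mul, hv, one_mul, norm_pow] at h2
    exact (pow_left_inj₀ (norm_nonneg _) (norm_nonneg _) (by omega)).1 h2
  have hB0 : ∀ i, ‖(cc B).eval (y i)‖ ≠ 0 := by
    intro i h0
    apply not_both hA (y i)
    refine ⟨norm_eq_zero.1 ((hAB i).trans h0), norm_eq_zero.1 h0⟩
  have hJ : cc (JJ A) = cc A * derivative (cc B) - derivative (cc A) * cc B := by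
    unfold JJ cc
    rw [Polynomial.map_sub, Polynomial.map_mul, Polynomial.map_mul, derivative_map, derivative_map]
  have hder : ∀ i, ‖(derivative P).eval (y i)‖ =
      k * ‖(cc B).eval (y i)‖ ^ (k - 2) * ‖(cc (JJ A)).eval (y i)‖ := by
    intro i
    obtain ⟨m, rfl⟩ : ∃ m, k = m + 2 := ⟨k - 2, by omega⟩
    have h1 : (derivative P).eval (y i) * (cc B).eval (y i) =
        -(((m + 2 : ℕ) : ℂ) * (cc A).eval (y i) ^ (m + 1) * (cc (JJ A)).eval (y i)) := by
      have h2 := hyr i
      rw [hev] at h2
      have h3 : (derivative P).eval (y i) =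
          ((m + 2 : ℕ) : ℂ) * (cc A).eval (y i) ^ (m + 1) * (derivative (cc A)).eval (y i) -
          v * (((m + 2 : ℕ) : ℂ) * (cc B).eval (y i) ^ (m + 1) *
            (derivative (cc B)).eval (y i)) := by
        rw [hP]
        unfold PP
        rw [derivative_sub, derivative_C_mul, derivative_pow, derivative_pow]
        simp only [eval_sub, eval_mul, eval_C, eval_pow]
        rfl
      rw [h3, hJ, eval_sub, eval_mul, eval_mul]
      linear_combination (((m + 2 : ℕ) : ℂ) * (derivative (cc B)).eval (y i)) * h2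
    have h2 := congrArg norm h1
    rw [norm_mul, norm_neg, norm_mul, norm_mul, norm_pow, Complex.norm_natCast, hAB i] at h2
    have h3 := hB0 i
    have h4 : ‖(derivative P).eval (y i)‖ * ‖(cc B).eval (y i)‖ =
        (((m + 2 : ℕ) : ℝ) * ‖(cc B).eval (y i)‖ ^ (m + 2 - 2) * ‖(cc (JJ A)).eval (y i)‖) *
          ‖(cc B).eval (y i)‖ := by
      rw [h2, Nat.add_sub_cancel, pow_succ]
      ring
    exact mul_right_cancel₀ h3 h4
  -- the Vandermonde product
  have hV : V2 y * ‖P.leadingCoeff‖ ^ (k * a) = ∏ i, ‖(derivative P).eval (y i)‖ := by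
    have h1 : ∀ i, ‖(derivative P).eval (y i)‖ =
        (∏ j ∈ Finset.univ.erase i, ‖y i - y j‖) * ‖P.leadingCoeff‖ := by
      intro i
      have h2 : P = C P.leadingCoeff * ∏ j, (X - C (y j)) := hy
      have h3 : (derivative P).eval (y i) = P.leadingCoeff *
          ∏ j ∈ Finset.univ.erase i, (y i - y j) := by
        conv_lhs => rw [h2]
        rw [derivative_C_mul, eval_mul, eval_C, derivative_prod_finset, eval_finsetSum]
        congr 1
        rw [Finset.sum_eq_single i]
        · rw [derivative_X_sub_C, mul_one, eval_prod]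
          refine Finset.prod_congr rfl fun j _ => ?_
          rw [eval_sub, eval_X, eval_C]
        · intro j _ hj
          rw [eval_mul, eval_prod, Finset.prod_eq_zero (i := i)
            (Finset.mem_erase.2 ⟨hj.symm, Finset.mem_univ _⟩), zero_mul]
          rw [eval_sub, eval_X, eval_C, sub_self]
        · intro h
          exact absurd (Finset.mem_univ i) h
      rw [h3, norm_mul, norm_prod, mul_comm]
    simp_rw [h1]
    rw [Finset.prod_mul_distrib, Finset.prod_const, Finset.card_univ, Fintype.card_fin]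
    rfl
  have hBprod : (∏ i, ‖(cc B).eval (y i)‖) * ‖P.leadingCoeff‖ ^ a = RR A ^ k := by
    have h1 := res_swap P (cc B)
    rw [natDegree_cc, hdB, hprod, lead_cc, lead_rev hA, hdeg] at h1
    have h2 : ‖((A.coeff 0 : ℤ) : ℂ)‖ = 1 := by
      rw [Complex.norm_intCast]
      exact_mod_cast hA.const
    rw [h2, one_pow, one_mul] at h1
    rw [mul_comm, h1]
    unfold RR
    have h3 : ((cc B).roots.map fun x => ‖P.eval x‖) =
        (cc B).roots.map fun x => ‖(cc A).eval x‖ ^ k := by
      refine Multiset.map_congr rfl fun x hx => ?_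
      have h4 : (cc B).eval x = 0 := (mem_roots'.1 hx).2
      rw [hev, h4, zero_pow (by omega), mul_zero, sub_zero, norm_pow]
    rw [h3, Multiset.prod_map_pow]
  have hJprod : ‖P.leadingCoeff‖ ^ (JJ A).natDegree * (∏ i, ‖(cc (JJ A)).eval (y i)‖) =
      |((JJ A).leadingCoeff : ℝ)| ^ (k * a) *
        ((cc (JJ A)).roots.map fun x => ‖P.eval x‖).prod := by
    have h1 := res_swap P (cc (JJ A))
    rw [natDegree_cc, hprod, lead_cc, hdeg, Complex.norm_intCast] at h1
    exact h1
  -- assembly
  have hexp : 2 * k * a - 2 * a + (JJ A).natDegree = k * a + a * (k - 2) + (JJ A).natDegree := by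
    obtain ⟨m, rfl⟩ : ∃ m, k = m + 2 := ⟨k - 2, by omega⟩
    have : 2 * (m + 2) * a - 2 * a = (m + 2) * a + a * (m + 2 - 2) := by
      rw [Nat.add_sub_cancel]
      have : 2 * (m + 2) * a = (m + 2) * a + a * m + 2 * a := by ring
      omega
    rw [this]
  rw [hexp, pow_add, pow_add]
  have h5 : ∏ i, ‖(derivative P).eval (y i)‖ =
      (k : ℝ) ^ (k * a) * (∏ i, ‖(cc B).eval (y i)‖) ^ (k - 2) *
        ∏ i, ‖(cc (JJ A)).eval (y i)‖ := by
    simp_rw [hder]
    rw [Finset.prod_mul_distrib, Finset.prod_mul_distrib, Finset.prod_const, Finset.card_univ,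
      Fintype.card_fin, Finset.prod_pow]
  calc V2 y * (‖P.leadingCoeff‖ ^ (k * a) * ‖P.leadingCoeff‖ ^ (a * (k - 2)) *
        ‖P.leadingCoeff‖ ^ (JJ A).natDegree)
      = (V2 y * ‖P.leadingCoeff‖ ^ (k * a)) * ‖P.leadingCoeff‖ ^ (a * (k - 2)) *
        ‖P.leadingCoeff‖ ^ (JJ A).natDegree := by ring
    _ = (k : ℝ) ^ (k * a) * ((∏ i, ‖(cc B).eval (y i)‖) * ‖P.leadingCoeff‖ ^ a) ^ (k - 2) *
        (‖P.leadingCoeff‖ ^ (JJ A).natDegree * ∏ i, ‖(cc (JJ A)).eval (y i)‖) := by
        rw [hV, h5, mul_pow, ← pow_mul]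
        ring
    _ = (k : ℝ) ^ (k * a) * RR A ^ (k * (k - 2)) *
        |((JJ A).leadingCoeff : ℝ)| ^ (k * a) *
        ((cc (JJ A)).roots.map fun x => ‖P.eval x‖).prod := by
        rw [hBprod, hJprod, ← pow_mul]
        ring

end Pool.Agent.Helper88.GP
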